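import Pool.Agent.N162.GP.Stm
import Pool.Agent.W602.GT.Der

/-!
Project GP (helper162), part GL: derivations with a nonzero determinant (helper383).
-/

set_option autoImplicit false
set_option linter.overlappingInstances false

open FF

namespace Pool.Agent.N383.GP

theorem exists_tb {k L : Type} [Field k] [Field L] [Algebra k L] {m : ℕ}
    (h : Algebra.trdeg k L = m) : ∃ t : Fin m → L, IsTranscendenceBasis k t := by
  obtain ⟨ι, z, hz⟩ := exists_isTranscendenceBasis' k L
  have h1 := hz.cardinalMk_eq_trdeg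
  rw [h] at h1
  have h2 : Cardinal.lift.{0} (Cardinal.mk ι) = Cardinal.lift.{0} (Cardinal.mk (Fin m)) := by
    rw [h1]
    simp
  obtain ⟨e⟩ := Cardinal.lift_mk_eq'.1 h2
  exact ⟨z ∘ e.symm, (isTranscendenceBasis_equiv e.symm).2 hz⟩

section ders

variable {Ω E : Type} [Field Ω] [Algebra ℂ Ω] [Field E] [Algebra ℂ E] [Algebra Ω E]
  [IsScalarTower ℂ Ω E] [IsAlgClosed Ω] [IsFF Ω E]

/-- values of sums of derivations -/
theorem sum_apply {m : ℕ} (g : Fin m → E) (δ : Fin m → Derivation ℂ E E) (y : E) :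
    (∑ i, g i • δ i) y = ∑ i, g i * δ i y :=
  map_sum (⟨⟨fun d : Derivation ℂ E E => d y, rfl⟩, fun _ _ => rfl⟩ :
    Derivation ℂ E E →+ E) (fun i => g i • δ i) Finset.univ

/-- a system of generators of the derivations -/
theorem exists_gen (hc : Pool.Agent.N162.CV.StDERc) {m : ℕ} (hm : Algebra.trdeg ℂ Ω = m) (x : E)
    (hx : Transcendental Ω x) : ∃ δ : Fin (m + 1) → Derivation ℂ E E,
    (∀ a : Ω, δ 0 (algebraMap Ω E a) = 0) ∧ δ 0 x = 1 ∧
    (∀ i, i ≠ 0 → δ i x = 0 ∧
      ∃ D : Derivation ℂ Ω Ω, ∀ a, δ i (algebraMap Ω E a) = algebraMap Ω E (D a)) ∧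
    ∀ θ : Derivation ℂ E E, ∃ a : Fin (m + 1) → E, ∀ y, θ y = ∑ i, a i * δ i y := by
  classical
  obtain ⟨⟨δ₀, h0⟩, hD⟩ := hc Ω E x hx
  obtain ⟨t, ht⟩ := exists_tb hm
  choose D hDt using fun i : Fin m =>
    Pool.Agent.W602.GT.exists_der t ht (fun j => if j = i then (1 : Ω) else 0)
  choose δ' h1 h2 using fun i : Fin m => hD (D i)
  have e0 : ∀ a : Ω, (δ₀.restrictScalars ℂ) (algebraMap Ω E a) = 0 :=
    fun a => δ₀.map_algebraMap a
  have e1 : (δ₀.restrictScalars ℂ) x = 1 := h0
  refine ⟨Fin.cons (δ₀.restrictScalars ℂ) δ', ?_, ?_, ?_, ?_⟩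
  · intro a
    rw [Fin.cons_zero]
    exact e0 a
  · rw [Fin.cons_zero]
    exact e1
  · intro i hi
    obtain ⟨j, rfl⟩ := Fin.exists_succ_eq.2 hi
    rw [Fin.cons_succ]
    exact ⟨h2 j, D j, h1 j⟩
  · intro θ
    refine ⟨Fin.cons (θ x) fun j => θ (algebraMap Ω E (t j)), ?_⟩
    have hb : IsTranscendenceBasis ℂ (Sum.elim (fun _ : Unit => x) (algebraMap Ω E ∘ t)) :=
      ht.sumElim_comp (IsFF.basis hx)
    have key : θ = θ x • (δ₀.restrictScalars ℂ) + ∑ j, θ (algebraMap Ω E (t j)) • δ' j := by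
      refine Pool.Agent.W602.GT.der_ext _ hb fun i => ?_
      rcases i with i | i
      · change θ x = θ x * (δ₀.restrictScalars ℂ) x +
          (∑ j, θ (algebraMap Ω E (t j)) • δ' j) x
        rw [sum_apply, e1, mul_one, Finset.sum_eq_zero fun j _ => by rw [h2, mul_zero], add_zero]
      · change θ (algebraMap Ω E (t i)) =
          θ x * (δ₀.restrictScalars ℂ) (algebraMap Ω E (t i)) +
          (∑ j, θ (algebraMap Ω E (t j)) • δ' j) (algebraMap Ω E (t i))
        rw [sum_apply, e0, mul_zero, zero_add, Finset.sum_eq_single i]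
        · rw [h1, hDt, if_pos rfl, map_one, mul_one]
        · intro b _ hb
          rw [h1, hDt, if_neg (Ne.symm hb), map_zero, mul_zero]
        · intro h
          exact absurd (Finset.mem_univ _) h
    intro y
    rw [Fin.sum_univ_succ]
    simp only [Fin.cons_zero, Fin.cons_succ]
    have h3 := congrArg (fun d : Derivation ℂ E E => d y) key
    rw [← sum_apply (fun j => θ (algebraMap Ω E (t j))) δ' y]
    exact h3

end ders

section alg

variable {K E : Type} [Field K] [Algebra ℂ K] [Field E] [Algebra ℂ E]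

/-- a derivation which vanishes on the image of a transcendence basis of `K` vanishes on the image
of `K` -/
theorem kills {ι : Type} (φ : K →ₐ[ℂ] E) {z : ι → K} (hz : IsTranscendenceBasis ℂ z)
    (δ : Derivation ℂ E E) (h : ∀ i, δ (φ (z i)) = 0) (y : K) : δ (φ y) = 0 := by
  -- the subfield of the elements of `K` which are mapped to constants
  have halg : Algebra.IsAlgebraic (IntermediateField.adjoin ℂ (Set.range z)) K :=
    hz.isAlgebraic_field
  have hle : IntermediateField.adjoin ℂ (Set.range z) ≤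
      (Pool.Agent.W602.GT.consts δ).comap φ := by
    rw [IntermediateField.adjoin_le_iff]
    rintro _ ⟨i, rfl⟩
    exact h i
  obtain ⟨p, hp0, hp⟩ := halg.isAlgebraic y
  let f : IntermediateField.adjoin ℂ (Set.range z) →+* Pool.Agent.W602.GT.consts δ :=
    { toFun := fun a => ⟨φ a, hle a.2⟩
      map_one' := Subtype.ext (map_one φ)
      map_mul' := fun a b => Subtype.ext (map_mul φ _ _)
      map_zero' := Subtype.ext (map_zero φ)
      map_add' := fun a b => Subtype.ext (map_add φ _ _) }
  have hchar : CharZero (Pool.Agent.W602.GT.consts δ) := charZero_of_injective_algebraMap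
    (algebraMap ℂ (Pool.Agent.W602.GT.consts δ)).injective
  have h1 : IsAlgebraic (Pool.Agent.W602.GT.consts δ) (φ y) := by
    refine ⟨p.map f, (Polynomial.map_ne_zero_iff f.injective).2 hp0, ?_⟩
    have h2 : (algebraMap (Pool.Agent.W602.GT.consts δ) E).comp f =
        (φ : K →+* E).comp (algebraMap (IntermediateField.adjoin ℂ (Set.range z)) K) := rfl
    have h3 : Polynomial.aeval (φ y) (p.map f) = φ (Polynomial.aeval y p) := by
      rw [Polynomial.aeval_def, Polynomial.eval₂_map, h2, Polynomial.aeval_def]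
      exact (Polynomial.hom_eval₂ p _ (φ : K →+* E) y).symm
    rw [h3, hp, map_zero]
  have hint : IsIntegral (Pool.Agent.W602.GT.consts δ) (φ y) := h1.isIntegral
  have h4 : Pool.Agent.W602.GT.overConsts δ (Polynomial.aeval (φ y)
      (minpoly (Pool.Agent.W602.GT.consts δ) (φ y))) = 0 := by
    rw [minpoly.aeval, map_zero]
  rw [Derivation.map_aeval] at h4
  have h5 : Polynomial.aeval (φ y)
      (Polynomial.derivative (minpoly (Pool.Agent.W602.GT.consts δ) (φ y))) ≠ 0 :=
    (minpoly.irreducible hint).separable.aeval_derivative_ne_zero (minpoly.aeval _ _)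
  rw [smul_eq_mul, Pool.Agent.W602.GT.overConsts_apply] at h4
  exact (mul_eq_zero.mp h4).resolve_left h5

/-- derivations dual to an independent family -/
theorem exists_dual {n : ℕ} {u : Fin n → E} (hu : AlgebraicIndependent ℂ u) (j : Fin n) :
    ∃ θ : Derivation ℂ E E, ∀ k, θ (u k) = if k = j then 1 else 0 := by
  classical
  obtain ⟨S, hS1, hS2⟩ := exists_isTranscendenceBasis_superset (s := Set.range u) hu.coe_range
  obtain ⟨θ, hθ⟩ := Pool.Agent.W602.GT.exists_der (fun s : S => (s : E)) hS2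
    fun s => if (s : E) = u j then 1 else 0
  refine ⟨θ, fun k => ?_⟩
  have h1 := hθ ⟨u k, hS1 ⟨k, rfl⟩⟩
  change θ (u k) = if u k = u j then 1 else 0 at h1
  rw [h1]
  by_cases h : k = j
  · rw [if_pos h, if_pos (by rw [h])]
  · rw [if_neg h, if_neg fun h' => h (hu.injective h')]

end alg

/-- GP/GL -/
theorem gl_ (hc : Pool.Agent.N162.CV.StDERc) : Pool.Agent.N162.GP.StGL := by
  classical
  intro n t K Ω E _ _ _ _ _ _ _ _ _ _ hK hΩ φ y hy z hz
  obtain ⟨δ, d0, d1, d2, d3⟩ := exists_gen hc hΩ (φ y) hy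
  obtain ⟨r, hr⟩ : ∃ r : Fin (t + 1) → Fin n → E, r = fun i j => δ i (φ (z j)) := ⟨_, rfl⟩
  have hu : AlgebraicIndependent ℂ fun k => φ (z k) := hz.1.map' φ.injective
  have hspan : Submodule.span E (Set.range r) = ⊤ := by
    refine top_le_iff.1 ?_
    rw [← (Pi.basisFun E (Fin n)).span_eq, Submodule.span_le]
    rintro _ ⟨j, rfl⟩
    obtain ⟨θ, hθ⟩ := exists_dual hu j
    obtain ⟨a, ha⟩ := d3 θ
    have h1 : (Pi.basisFun E (Fin n)) j = ∑ i, a i • r i := by
      funext k
      rw [Finset.sum_apply]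
      have h2 := ha (φ (z k))
      rw [hθ k] at h2
      rw [Pi.basisFun_apply, Pi.single_apply, h2]
      refine Finset.sum_congr rfl fun i _ => ?_
      rw [hr]
      rfl
    rw [h1]
    exact Submodule.sum_mem _ fun i _ => Submodule.smul_mem _ _ (Submodule.subset_span ⟨i, rfl⟩)
  have hr0 : r 0 ≠ 0 := by
    intro h
    have h1 : δ 0 (φ y) = 0 := kills φ hz (δ 0) (fun i => by
      have h2 := congrFun h i
      rw [hr] at h2
      exact h2) y
    rw [d1] at h1
    exact one_ne_zero h1
  have hli0 : LinearIndepOn E r {0} := LinearIndepOn.singleton hr0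
  obtain ⟨b, -, hb1, hb2, hb3⟩ := exists_linearIndepOn_extension hli0 (Set.subset_univ _)
  have h0b : (0 : Fin (t + 1)) ∈ b := hb1 (Set.mem_singleton _)
  have hspan2 : ⊤ ≤ Submodule.span E (Set.range fun i : b => r i) := by
    rw [← hspan, Submodule.span_le]
    rw [Set.image_univ] at hb2
    have h1 : (Set.range fun i : b => r i) = r '' b := by
      rw [Set.image_eq_range]
    rw [h1]
    exact hb2
  let B : Module.Basis b E (Fin n → E) := Module.Basis.mk hb3 hspan2
  have hcard : Fintype.card (Fin n) = Fintype.card b := by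
    rw [← Module.finrank_eq_card_basis B, Module.finrank_fin_fun, Fintype.card_fin]
  let e : Fin n ≃ b := Fintype.equivOfCardEq hcard
  refine ⟨e.symm ⟨0, h0b⟩, fun i => δ (e i), ?_, ?_, ?_, ?_⟩
  · intro a
    beta_reduce
    rw [e.apply_symm_apply]
    exact d0 a
  · beta_reduce
    rw [e.apply_symm_apply]
    exact d1
  · intro i hi
    refine d2 _ fun h => hi ?_
    rw [Equiv.eq_symm_apply]
    exact Subtype.ext h
  · have hrows : LinearIndependent E (Matrix.of fun i j => δ (e i) (φ (z j))).row := by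
      have h1 : (Matrix.of fun i j => δ (e i) (φ (z j))).row = (fun i : b => r i) ∘ e := by
        funext i j
        rw [hr]
        rfl
      rw [h1]
      exact hb3.comp _ e.injective
    have h2 := (Matrix.isUnit_iff_isUnit_det _).1 (Matrix.linearIndependent_rows_iff_isUnit.1 hrows)
    exact h2.ne_zero

end Pool.Agent.N383.GP

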